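import Pool.Agent.Helper17.RZ.Sch.St
import Pool.Agent.Helper84.RZ.Cone

/-!
# Project RZ (MP_77656e_ag): transport of perfect complexes along an isomorphism of function fields
-/

set_option autoImplicit false

namespace Pool.Agent.Helper45.RZ

open Pool.Agent.Helper17.RZ Pool.Agent.Helper17.RZ.Sch Pool.Agent.Helper49.RZ

universe u

noncomputable section

variable {k : Type u} [Field k] {K K' : Type u} [Field K] [Field K'] [Algebra k K] [Algebra k K']

/-! ### graded vector spaces -/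

/-- a linear map over `K'` is linear over `K` -/
def linr (e : K ≃ₐ[k] K') {V W : Type u} [AddCommGroup V] [AddCommGroup W] [Module K' V] [Module K' W]
    [Module K V] [Module K W] (hV : ∀ (c : K) (v : V), c • v = e c • v)
    (hW : ∀ (c : K) (w : W), c • w = e c • w) (φ : V →ₗ[K'] W) : V →ₗ[K] W where
  toFun := φ
  map_add' := φ.map_add
  map_smul' c v := by
    rw [hV, RingHom.id_apply, hW]
    exact φ.map_smul (e c) v

/-- restriction of scalars of a graded vector space along `e` -/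
def TG (e : K ≃ₐ[k] K') (X : GrD k K') : GrD k K :=
  letI : Module K X.V := Module.compHom X.V (e : K →+* K')
  have hV : ∀ (c : K) (v : X.V), c • v = e c • v := fun _ _ => rfl
  { V := X.V
    acg := X.acg
    modk := X.modk
    mod := Module.compHom X.V (e : K →+* K')
    tower := ⟨fun c x v => by
      change e (c • x) • v = c • (e x • v)
      rw [map_smul, smul_assoc]⟩
    pr := fun i => linr e hV hV (X.pr i)
    bd := X.bd
    pr_pr := fun i j => by
      refine LinearMap.ext fun v => ?_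
      have h := congrArg (fun f : X.V →ₗ[K'] X.V => f v) (X.pr_pr i j)
      by_cases hij : i = j
      · simp only [if_pos hij] at h ⊢
        exact h
      · simp only [if_neg hij] at h ⊢
        exact h
    pr_bd := fun i hi => by
      refine LinearMap.ext fun v => ?_
      exact congrArg (fun f : X.V →ₗ[K'] X.V => f v) (X.pr_bd i hi)
    pr_sum := by
      refine LinearMap.ext fun v => ?_
      have h := congrArg (fun f : X.V →ₗ[K'] X.V => f v) X.pr_sum
      simp only [LinearMap.sum_apply] at h ⊢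
      exact h
    d := linr e hV hV X.d
    d_pr := fun i => by
      refine LinearMap.ext fun v => ?_
      exact congrArg (fun f : X.V →ₗ[K'] X.V => f v) (X.d_pr i)
    d_d := by
      refine LinearMap.ext fun v => ?_
      exact congrArg (fun f : X.V →ₗ[K'] X.V => f v) X.d_d }

/-- the linear maps over `K'` are the linear maps over `K` -/
def lt (e : K ≃ₐ[k] K') (X Y : GrD k K') : (X.V →ₗ[K'] Y.V) ≃ₗ[k] ((TG e X).V →ₗ[K] (TG e Y).V) where
  toFun φ :=
    { toFun := φ
      map_add' := φ.map_add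
      map_smul' := fun c v => φ.map_smul (e c) v }
  invFun ψ :=
    { toFun := ψ
      map_add' := ψ.map_add
      map_smul' := fun c v => by
        have h := ψ.map_smul (e.symm c) v
        have h1 : ∀ v : X.V, (e (e.symm c)) • v = c • v := fun v => by rw [e.apply_symm_apply]
        have h2 : ∀ v : Y.V, (e (e.symm c)) • v = c • v := fun v => by rw [e.apply_symm_apply]
        change ψ ((e (e.symm c)) • (show X.V from v) : X.V) =
          ((e (e.symm c)) • (show Y.V from ψ v) : Y.V) at h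
        rw [h1, h2] at h
        exact h }
  map_add' _ _ := rfl
  map_smul' _ _ := rfl
  left_inv _ := rfl
  right_inv _ := rfl

theorem lt_apply (e : K ≃ₐ[k] K') (X Y : GrD k K') (φ : X.V →ₗ[K'] Y.V) (v : X.V) :
    lt e X Y φ v = φ v := rfl

theorem lt_deg (e : K ≃ₐ[k] K') (X Y : GrD k K') (n : ℤ) (φ : X.V →ₗ[K'] Y.V) :
    IsDeg (X := TG e X) (Y := TG e Y) n (lt e X Y φ) ↔ IsDeg (X := X) (Y := Y) n φ := by
  constructor
  · intro h i
    refine LinearMap.ext fun v => ?_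
    exact congrArg (fun f : (TG e X).V →ₗ[K] (TG e Y).V => f v) (h i)
  · intro h i
    refine LinearMap.ext fun v => ?_
    exact congrArg (fun f : X.V →ₗ[K'] Y.V => f v) (h i)

theorem lt_comp (e : K ≃ₐ[k] K') (X Y W : GrD k K') (φ : Y.V →ₗ[K'] W.V) (ψ : X.V →ₗ[K'] Y.V) :
    lt e X W (φ ∘ₗ ψ) = lt e Y W φ ∘ₗ lt e X Y ψ := rfl

theorem lt_P (e : K ≃ₐ[k] K') (X : GrD k K') : (TG e X).P = lt e X X X.P := by
  unfold GrD.P
  rw [map_sum]
  refine Finset.sum_congr rfl fun i _ => ?_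
  rw [map_zsmul]
  rfl

theorem lt_ccup {I : Type} [LinearOrder I] (e : K ≃ₐ[k] K') (X Y W : GrD k K')
    (c : Finset I → (Y.V →ₗ[K'] W.V)) (c' : Finset I → (X.V →ₗ[K'] Y.V)) (σ : Finset I) :
    lt e X W (ccup c c' σ) = ccup (fun τ => lt e Y W (c τ)) (fun τ => lt e X Y (c' τ)) σ := by
  unfold ccup
  rw [map_sum]
  rfl

theorem lt_rawD {I : Type} [LinearOrder I] (e : K ≃ₐ[k] K') (X Y : GrD k K') (n : ℤ)
    (c : Finset I → (X.V →ₗ[K'] Y.V)) (σ : Finset I) :
    lt e X Y (rawD X Y n c σ) = rawD (TG e X) (TG e Y) n (fun τ => lt e X Y (c τ)) σ := by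
  unfold rawD cdel
  rw [map_sub, map_add, map_zsmul, lt_comp, lt_comp, lt_comp, map_sum, lt_P]
  congr 3

theorem lt_cone1 {I : Type} [LinearOrder I] (e : K ≃ₐ[k] K') (X : GrD k K') (σ : Finset I) :
    lt e X X ((cone1 X.V : Finset I → _) σ) = (cone1 (TG e X).V : Finset I → _) σ := by
  unfold cone1
  split
  · rfl
  · rfl

/-! ### lattices -/

/-- the lattice over `A` -/
def TL (e : K ≃ₐ[k] K') {A : Subalgebra k K} {A' : Subalgebra k K'} (h : ∀ x, x ∈ A ↔ e x ∈ A')
    (X : GrD k K') (L : Submodule A' X.V) : Submodule A (TG e X).V where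
  carrier := (L : Set X.V)
  add_mem' := fun ha hb => L.add_mem ha hb
  zero_mem' := L.zero_mem
  smul_mem' := fun c _ hv => L.smul_mem ⟨e c, (h c).1 c.2⟩ hv

theorem mem_TL (e : K ≃ₐ[k] K') {A : Subalgebra k K} {A' : Subalgebra k K'}
    (h : ∀ x, x ∈ A ↔ e x ∈ A') (X : GrD k K') (L : Submodule A' X.V) (v : X.V) :
    v ∈ TL e h X L ↔ v ∈ L := Iff.rfl

/-- the isomorphism of the coordinate rings -/
def reA (e : K ≃ₐ[k] K') {A : Subalgebra k K} {A' : Subalgebra k K'} (h : ∀ x, x ∈ A ↔ e x ∈ A') :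
    A ≃+* A' where
  toFun c := ⟨e c, (h c).1 c.2⟩
  invFun c := ⟨e.symm c, (h _).2 (by rw [e.apply_symm_apply]; exact c.2)⟩
  left_inv c := Subtype.ext (e.symm_apply_apply _)
  right_inv c := Subtype.ext (e.apply_symm_apply _)
  map_mul' _ _ := Subtype.ext (map_mul e _ _)
  map_add' _ _ := Subtype.ext (map_add e _ _)

theorem TL_fin (e : K ≃ₐ[k] K') {A : Subalgebra k K} {A' : Subalgebra k K'}
    (h : ∀ x, x ∈ A ↔ e x ∈ A') (X : GrD k K') (L : Submodule A' X.V) (hL : Module.Finite A' L) :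
    Module.Finite A (TL e h X L) := by
  let f : L →ₛₗ[((reA e h).symm : A' →+* A)] TL e h X L :=
    { toFun := fun v => ⟨v.1, v.2⟩
      map_add' := fun _ _ => rfl
      map_smul' := fun c v => Subtype.ext (by
        change (c : K') • (v : X.V) = e (e.symm c) • (v : X.V)
        rw [e.apply_symm_apply]) }
  exact Module.Finite.of_surjective f fun v => ⟨⟨v.1, v.2⟩, rfl⟩

theorem TL_proj (e : K ≃ₐ[k] K') {A : Subalgebra k K} {A' : Subalgebra k K'}
    (h : ∀ x, x ∈ A ↔ e x ∈ A') (X : GrD k K') (L : Submodule A' X.V) (hL : Module.Projective A' L) :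
    Module.Projective A (TL e h X L) := by
  have h1 := RingHomInvPair.of_ringEquiv (reA e h).symm
  have h2 := RingHomInvPair.symm ((reA e h).symm : A' →+* A) ((reA e h).symm.symm : A →+* A')
  let f : L ≃ₛₗ[((reA e h).symm : A' →+* A)] TL e h X L :=
    { toFun := fun v => ⟨v.1, v.2⟩
      invFun := fun v => ⟨v.1, v.2⟩
      map_add' := fun _ _ => rfl
      map_smul' := fun c v => Subtype.ext (by
        change (c : K') • (v : X.V) = e (e.symm c) • (v : X.V)
        rw [e.apply_symm_apply])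
      left_inv := fun _ => rfl
      right_inv := fun _ => rfl }
  exact Module.Projective.of_equiv f

theorem TL_gen (e : K ≃ₐ[k] K') {A : Subalgebra k K} {A' : Subalgebra k K'}
    (h : ∀ x, x ∈ A ↔ e x ∈ A') (X : GrD k K') (L : Submodule A' X.V)
    (hL : ∀ v : X.V, ∃ c : A', c ≠ 0 ∧ c • v ∈ L) (v : (TG e X).V) :
    ∃ c : A, c ≠ 0 ∧ c • v ∈ TL e h X L := by
  obtain ⟨c, hc, hv⟩ := hL v
  refine ⟨(reA e h).symm c, fun h0 => hc ((map_eq_zero_iff _ (reA e h).symm.injective).1 h0), ?_⟩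
  have h1 : (((reA e h) ((reA e h).symm c) : A') : K') • (show X.V from v) ∈ L := by
    rw [RingEquiv.apply_symm_apply]
    exact hv
  exact h1

theorem TL_span (e : K ≃ₐ[k] K') {A B : Subalgebra k K} {A' B' : Subalgebra k K'}
    (h : ∀ x, x ∈ A ↔ e x ∈ A') (hB : ∀ x, x ∈ B ↔ e x ∈ B') (X : GrD k K') (L : Submodule A' X.V)
    (M : Submodule B' X.V) (hM : M = Submodule.span B' (L : Set X.V)) :
    TL e hB X M = Submodule.span B (TL e h X L : Set (TG e X).V) := by
  subst hM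
  apply le_antisymm
  · intro v hv
    have hv' : (show X.V from v) ∈ Submodule.span B' (L : Set X.V) := hv
    refine Submodule.span_induction (p := fun (v : X.V) _ => (show (TG e X).V from v) ∈
      Submodule.span B (TL e h X L : Set (TG e X).V)) ?_ ?_ ?_ ?_ hv'
    · intro x hx
      exact Submodule.subset_span hx
    · exact Submodule.zero_mem _
    · intro x y _ _ hx hy
      exact Submodule.add_mem _ hx hy
    · intro c x _ hx
      have h1 := Submodule.smul_mem _ ((reA e hB).symm c) hx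
      have h2 : (((reA e hB).symm c) • (show (TG e X).V from x) : (TG e X).V) =
          (show (TG e X).V from (c • x : X.V)) := by
        change (((reA e hB) ((reA e hB).symm c) : B') : K') • (show X.V from x) = (c : K') • x
        rw [RingEquiv.apply_symm_apply]
      rw [h2] at h1
      exact h1
  · rw [Submodule.span_le]
    intro v hv
    exact Submodule.subset_span (s := (L : Set X.V)) hv

theorem mem_map_A (Z : ProjVar k K) (e : K ≃ₐ[k] K') (σ : Finset Z.I) (x : K) :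
    x ∈ Z.A σ ↔ e x ∈ (Z.map e).A σ := by
  have h1 : (Z.map e).A σ = (Z.A σ).map (e : K →ₐ[k] K') := by
    unfold ProjVar.A
    rw [AlgHom.map_adjoin]
    congr 1
    ext y
    constructor
    · rintro ⟨i, hi, j, rfl⟩
      exact ⟨_, ⟨i, hi, j, rfl⟩, map_div₀ e _ _⟩
    · rintro ⟨_, ⟨i, hi, j, rfl⟩, rfl⟩
      exact ⟨i, hi, j, map_div₀ e _ _⟩
  rw [h1, Subalgebra.mem_map]
  constructor
  · intro h
    exact ⟨x, h, rfl⟩
  · rintro ⟨y, hy, hxy⟩
    rwa [← e.injective hxy]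

theorem mem_map_A' (Z : ProjVar k K) (e : K ≃ₐ[k] K') (σ : Finset Z.I) (x : K') :
    x ∈ (Z.map e).A σ ↔ e.symm x ∈ Z.A σ := by
  rw [mem_map_A Z e, e.apply_symm_apply]

/-! ### complexes -/

/-- restriction of scalars of complexes from `K'` to `K` -/
def T (Z : ProjVar k K) (e : K ≃ₐ[k] K') (X : Cplx (Z.map e)) : Cplx Z where
  toGrD := TG e X.toGrD
  lat σ := TL e (mem_map_A Z e σ) X.toGrD (X.lat σ)
  lat_fin σ hσ := TL_fin e (mem_map_A Z e σ) X.toGrD (X.lat σ) (X.lat_fin σ hσ)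
  lat_proj σ hσ := TL_proj e (mem_map_A Z e σ) X.toGrD (X.lat σ) (X.lat_proj σ hσ)
  lat_gen σ hσ := TL_gen e (mem_map_A Z e σ) X.toGrD (X.lat σ) (X.lat_gen σ hσ)
  lat_loc σ τ hσ hστ := TL_span e (mem_map_A Z e σ) (mem_map_A Z e τ) X.toGrD (X.lat σ) (X.lat τ)
    (X.lat_loc σ τ hσ hστ)
  lat_pr σ i v hv := X.lat_pr σ i v hv
  lat_d σ v hv := X.lat_d σ v hv

/-- restriction of scalars of complexes from `K` to `K'` -/
def T' (Z : ProjVar k K) (e : K ≃ₐ[k] K') (X : Cplx Z) : Cplx (Z.map e) where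
  toGrD := TG e.symm X.toGrD
  lat σ := TL e.symm (mem_map_A' Z e σ) X.toGrD (X.lat σ)
  lat_fin σ hσ := TL_fin e.symm (mem_map_A' Z e σ) X.toGrD (X.lat σ) (X.lat_fin σ hσ)
  lat_proj σ hσ := TL_proj e.symm (mem_map_A' Z e σ) X.toGrD (X.lat σ) (X.lat_proj σ hσ)
  lat_gen σ hσ := TL_gen e.symm (mem_map_A' Z e σ) X.toGrD (X.lat σ) (X.lat_gen σ hσ)
  lat_loc σ τ hσ hστ := TL_span e.symm (mem_map_A' Z e σ) (mem_map_A' Z e τ) X.toGrD (X.lat σ) (X.lat τ)
    (X.lat_loc σ τ hσ hστ)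
  lat_pr σ i v hv := X.lat_pr σ i v hv
  lat_d σ v hv := X.lat_d σ v hv

theorem lt_hom (Z : ProjVar k K) (e : K ≃ₐ[k] K') (X Y : Cplx (Z.map e)) (n : ℤ)
    (c : Finset Z.I → (X.V →ₗ[K'] Y.V)) :
    (fun σ => lt e X.toGrD Y.toGrD (c σ)) ∈ Z.sys.Hom (T Z e X) (T Z e Y) n ↔
      c ∈ (Z.map e).sys.Hom X Y n := by
  constructor
  · rintro ⟨h1, h2⟩
    refine ⟨?_, fun σ hσ => ⟨fun v hv => (h2 σ hσ).1 v hv, (lt_deg e _ _ _ _).1 (h2 σ hσ).2⟩⟩
    exact (map_eq_zero_iff _ (lt e X.toGrD Y.toGrD).injective).1 h1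
  · rintro ⟨h1, h2⟩
    refine ⟨?_, fun σ hσ => ⟨fun v hv => (h2 σ hσ).1 v hv, (lt_deg e _ _ _ _).2 (h2 σ hσ).2⟩⟩
    exact (map_eq_zero_iff _ (lt e X.toGrD Y.toGrD).injective).2 h1

/-- the bijection of the morphisms -/
def hEq (Z : ProjVar k K) (e : K ≃ₐ[k] K') (X Y : Cplx (Z.map e)) (n : ℤ) :
    (Z.map e).sys.Hom X Y n ≃ₗ[k] Z.sys.Hom (T Z e X) (T Z e Y) n where
  toFun c := ⟨fun σ => lt e X.toGrD Y.toGrD (c.1 σ), (lt_hom Z e X Y n c.1).2 c.2⟩
  invFun c := ⟨fun σ => (lt e X.toGrD Y.toGrD).symm (c.1 σ), (lt_hom Z e X Y n _).1 (by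
    simp only [LinearEquiv.apply_symm_apply]
    exact c.2)⟩
  map_add' a b := Subtype.ext (funext fun σ => map_add (lt e X.toGrD Y.toGrD) (a.1 σ) (b.1 σ))
  map_smul' r a := Subtype.ext (funext fun σ => map_smul (lt e X.toGrD Y.toGrD) r (a.1 σ))
  left_inv c := Subtype.ext (funext fun σ => LinearEquiv.symm_apply_apply _ _)
  right_inv c := Subtype.ext (funext fun σ => LinearEquiv.apply_symm_apply _ _)

/-- the functor -/
def FT (Z : ProjVar k K) (e : K ≃ₐ[k] K') : DGFun (Z.map e).perf Z.perf where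
  obj X := T Z e X
  map {X Y n} := (hEq Z e X Y n : (Z.map e).sys.Hom X Y n →ₗ[k] Z.sys.Hom (T Z e X) (T Z e Y) n)
  map_one X := Subtype.ext (funext fun σ => lt_cone1 e X.toGrD σ)
  map_comp {X Y W _ _ _} _ f g := Subtype.ext (funext fun σ =>
    lt_ccup e X.toGrD Y.toGrD W.toGrD f.1 g.1 σ)
  map_d {X Y n _} _ f := Subtype.ext (funext fun σ => lt_rawD e X.toGrD Y.toGrD n f.1 σ)

theorem qi_of_bij {C : DGCat.{u, u + 1, u} k} {D : DGCat.{u, u + 1, u} k} (F : DGFun C D) (X Y : C.Obj)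
    (h : ∀ n, Function.Bijective (F.map : C.Hom X Y n →ₗ[k] D.Hom (F.obj X) (F.obj Y) n)) :
    (F.onHom X Y).QI where
  inj {l n m} h₁ h₂ x y hx hy := by
    obtain ⟨z, rfl⟩ := (h l).2 y
    refine ⟨z, (h n).1 ?_⟩
    change F.map x = F.map (C.d h₁ z)
    rw [F.map_d]
    exact hy
  surj {l n m} h₁ h₂ y hy := by
    obtain ⟨x, rfl⟩ := (h n).2 y
    refine ⟨x, 0, (h m).1 ?_, ?_⟩
    · change F.map (C.d h₂ x) = F.map 0
      rw [F.map_d, map_zero]
      exact hy
    · rw [map_zero, add_zero]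
      rfl

theorem FT_qi (Z : ProjVar k K) (e : K ≃ₐ[k] K') (X Y : Cplx (Z.map e)) :
    ((FT Z e).onHom X Y).QI :=
  qi_of_bij (FT Z e) X Y fun n => (hEq Z e X Y n).bijective

theorem FT_retr (Z : ProjVar k K) (e : K ≃ₐ[k] K') (Y : Cplx Z) :
    Z.perf.Retract Y (T Z e (T' Z e Y)) := by
  have hc : ∀ (c : K) (v : Y.V), e.symm (e c) • v = c • v := fun c v => by rw [e.symm_apply_apply]
  let i : Y.V →ₗ[K] (T Z e (T' Z e Y)).V :=
    { toFun := fun v => v
      map_add' := fun _ _ => rfl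
      map_smul' := fun c v => (hc c v).symm }
  let p : (T Z e (T' Z e Y)).V →ₗ[K] Y.V :=
    { toFun := fun v => v
      map_add' := fun _ _ => rfl
      map_smul' := fun c v => hc c v }
  refine Helper84.RZ.isoRetr k K Z (T Z e (T' Z e Y)) Y i p ?_ ?_ rfl rfl (fun σ _ y hy => hy)
    (fun σ _ x hx => hx) rfl
  · intro j
    rw [add_zero]
    rfl
  · intro j
    rw [add_zero]
    rfl

theorem transportS : TransportS.{u} := by
  intro k _ K K' _ _ _ _ Z e
  exact ⟨FT Z e, fun X Y => FT_qi Z e X Y, fun Y => ⟨T' Z e Y, FT_retr Z e Y⟩⟩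

end

end Pool.Agent.Helper45.RZ
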